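import Mathlib
import Pool.Agent.H172.TC.ManyFinal

/-!
# Tilings by cubes of two sizes for all but `O(N ^ (1 - c))` numbers, with many ratios

Q1 asks whether for every large `n` the unit cube has a tiling by exactly `n` cubes of at most two
sizes. We show that this is true for all `n` outside of a set which has at most `C N ^ (1 - c)`
elements up to `N`. For each `n` in the good set, there are at least `n ^ c` different ratios of
the form `(a + 1) : a` for which there is such a tiling, and both sizes occur in it. This holds in
every dimension `d ≥ 2`; the question is the case `d = 3`.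

Proof. Let `m(a) = (a + 1) ^ d - a ^ d`. If `n` is large in terms of `a` and a `d`-th power modulo
`m(a)`, then the cube can be divided into `M ^ d` blocks, and these into `a ^ d` or `(a + 1) ^ d`
cubes, such that there are `n` cubes in all; if `n` is not a `d`-th power then both kinds of blocks
occur. We use the `a ≤ N ^ (c')`, divisible by a fixed number, for which `m(a)` has no prime factor
below `y = N ^ (c'')`. The lower bound sieve of Brun and Hooley (with a level which is a power of
`y`) shows that there are many of them. For almost all `n ≤ N`, the number of `d`-th roots of `n`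
modulo `m(a)` which are prime to `m(a)`, summed over these `a`, is at least half of its mean, by
Chebyshev's inequality, since two of the numbers `m(a)` have a common factor only rarely and this
factor is larger than `y`. A single `a` contributes at most a small power of `m(a)` to this sum, so
many of the `a` contribute.
-/

set_option autoImplicit false

namespace Pool.Agent.Results.MP_01ad5f_co.ManyRatios

/-- The closed cube of dimension `d` with least corner `x` and side length `s`. -/
def Cube {d : ℕ} (x : Fin d → ℝ) (s : ℝ) : Set (Fin d → ℝ) := Set.Icc x fun k => x k + s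

/-- The closed cubes with the corners `x i` and the side lengths `s i` tile the unit cube: the
side lengths are positive and less than one, the union of the cubes is the unit cube, and their
interiors are pairwise disjoint. -/
def IsTiling {d n : ℕ} (x : Fin n → Fin d → ℝ) (s : Fin n → ℝ) : Prop :=
  (∀ i, 0 < s i ∧ s i < 1) ∧ (⋃ i, Cube (x i) (s i)) = Set.Icc 0 1 ∧
    ∀ i j, i ≠ j → Disjoint (interior (Cube (x i) (s i))) (interior (Cube (x j) (s j)))

/-- **Two sizes suffice for all but `O(N ^ (1 - c))` of the numbers `n ≤ N`, with many ratios.**
For every dimension `d ≥ 2` there are `c > 0`, `C` and a set `S` of integers which contains all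
but at most `C N ^ (1 - c)` of the integers `1 ≤ n ≤ N`, for all `N ≥ 1`, and for each `n` in `S`
there are at least `n ^ c` integers `a ≥ 1` for which the unit cube of dimension `d` has a tiling
by exactly `n` cubes whose set of side lengths is `{r, (1 + 1 / a) r}` for some `r`. -/
theorem result (d : ℕ) (hd : 2 ≤ d) :
    ∃ (c C : ℝ) (S : Set ℕ),
      0 < c ∧
      (∀ N : ℕ, 1 ≤ N → ((Set.Icc 1 N \ S).ncard : ℝ) ≤ C * (N : ℝ) ^ (1 - c)) ∧
      ∀ n ∈ S, ∃ F : Finset ℕ, (n : ℝ) ^ c ≤ (F.card : ℝ) ∧ ∀ a ∈ F, 1 ≤ a ∧
        ∃ (x : Fin n → Fin d → ℝ) (s : Fin n → ℝ) (r : ℝ),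
          IsTiling x s ∧ Set.range s = {r, (1 + 1 / (a : ℝ)) * r} := by
  classical
  obtain ⟨c, hc0, -, C, hC⟩ := H172.TC.many_ratios d hd
  refine ⟨c, C, {n | H172.TC.ManyRatios d ((n : ℝ) ^ c) n}, hc0, fun N hN => ?_,
    fun n hn => hn⟩
  refine le_trans (le_of_eq ?_) (hC N hN)
  congr 1
  rw [← Set.ncard_coe_finset]
  congr 1
  ext n
  simp

end Pool.Agent.Results.MP_01ad5f_co.ManyRatios
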